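import Pool.Agent.H11Sum.Main

/-!
# Leaves without tight sets (helper11, file H11Sum/Tight.lean)
-/

set_option autoImplicit false

namespace Pool.Agent.Gab7e_h87

open Set Matroid Pool.Agent.H11Sum

variable {α : Type*}

/-- every proper nonempty subset `K` of the ground set has less than `2 r(K)` elements -/
def Dense (N : Matroid α) : Prop :=
  ∀ K ⊆ N.E, K.Nonempty → K ≠ N.E → ∃ A, N.IsBase A ∧ K.ncard < 2 * (A ∩ K).ncard

theorem glueT {N : Matroid α} (hE : N.E.Finite) {K W1 W2 X Y : Set α}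
    (hmax : ∀ A, N.IsBase A → (A ∩ K).ncard ≤ X.ncard)
    (hW1 : W1 ⊆ K) (hX : X ⊆ K) (hW2 : Disjoint W2 K) (hY : Disjoint Y K)
    (h1 : N.IsBase (W1 ∪ Y)) (h2 : N.IsBase (X ∪ W2)) (h3 : N.IsBase (X ∪ Y)) :
    N.IsBase (W1 ∪ W2) := by
  have i1 : (W1 ∪ Y) ∩ K = W1 := by
    rw [union_inter_distrib_right, inter_eq_left.2 hW1, hY.inter_eq, union_empty]
  have i2 : (X ∪ W2) ∩ K = X := by
    rw [union_inter_distrib_right, inter_eq_left.2 hX, hW2.inter_eq, union_empty]
  have i3 : (X ∪ Y) ∩ K = X := by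
    rw [union_inter_distrib_right, inter_eq_left.2 hX, hY.inter_eq, union_empty]
  have d1 : (W1 ∪ Y) \ K = Y := by
    rw [union_sdiff_distrib, sdiff_eq_empty.2 hW1, hY.sdiff_eq_left, empty_union]
  have d2 : (X ∪ W2) \ K = W2 := by
    rw [union_sdiff_distrib, sdiff_eq_empty.2 hX, hW2.sdiff_eq_left, empty_union]
  have d3 : (X ∪ Y) \ K = Y := by
    rw [union_sdiff_distrib, sdiff_eq_empty.2 hX, hY.sdiff_eq_left, empty_union]
  have f1 : (W1 ∪ Y).Finite := hE.subset h1.subset_ground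
  have f3 : (X ∪ Y).Finite := hE.subset h3.subset_ground
  have c1 := card_split (K := K) f1
  have c3 := card_split (K := K) f3
  have c4 := h1.ncard_eq_ncard_of_isBase h3
  rw [i1, d1] at c1
  rw [i3, d3] at c3
  have := swapMax hE (K := K) (A := W1 ∪ Y) (A' := X ∪ W2)
    (fun A hA => by rw [i1]; have := hmax A hA; omega) h1 h2 (by rw [i1, i2]; omega)
  rwa [i1, d2] at this

theorem glue1T {N : Matroid α} (hE : N.E.Finite) {B B' K : Set α}
    (hmax : ∀ A, N.IsBase A → (A ∩ K).ncard ≤ (B ∩ K).ncard)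
    (hB : N.IsBase B) {l1 l2 : List (α × α)}
    (len1 : l1.length = (B ∩ K).ncard) (len2 : l2.length = (B \ K).ncard)
    (f1 : fs l1 = B ∩ K) (s1 : ss l1 = B' ∩ K) (f2 : fs l2 = B \ K) (s2 : ss l2 = B' \ K)
    (w1 : ∀ a b, l1 = a ++ b →
      N.IsBase ((ss a ∪ fs b) ∪ (B \ K)) ∧ N.IsBase ((fs a ∪ ss b) ∪ (B \ K)))
    (w2 : ∀ a b, l2 = a ++ b →
      N.IsBase ((ss a ∪ fs b) ∪ (B ∩ K)) ∧ N.IsBase ((fs a ∪ ss b) ∪ (B ∩ K))) :
    Good N B B' (l1 ++ l2) := by
  have fB : B.Finite := hE.subset hB.subset_ground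
  refine ⟨?_, ?_, ?_, ?_⟩
  · rw [List.length_append, len1, len2, card_split fB]
  · rw [fs_append, f1, f2, inter_union_sdiff]
  · rw [ss_append, s1, s2, inter_union_sdiff]
  · intro c d hcd
    obtain ⟨x1, x2, y1, y2, ha, hb, rfl, rfl, -⟩ := split2 hcd
    have hx1 : fs x1 ∪ fs x2 ⊆ K := by
      rw [← fs_append, ← ha, f1]
      exact inter_subset_right
    have hx2 : ss x1 ∪ ss x2 ⊆ K := by
      rw [← ss_append, ← ha, s1]
      exact inter_subset_right
    have hy1 : Disjoint (fs y1 ∪ fs y2) K := by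
      rw [← fs_append, ← hb, f2]
      exact disjoint_sdiff_left
    have hy2 : Disjoint (ss y1 ∪ ss y2) K := by
      rw [← ss_append, ← hb, s2]
      exact disjoint_sdiff_left
    rw [union_subset_iff] at hx1 hx2
    rw [disjoint_union_left] at hy1 hy2
    have hBB : N.IsBase ((B ∩ K) ∪ (B \ K)) := by
      rw [inter_union_sdiff]
      exact hB
    obtain ⟨p1, p2⟩ := w1 x1 x2 ha
    obtain ⟨q1, q2⟩ := w2 y1 y2 hb
    rw [union_comm] at q1 q2
    constructor
    · have := glueT (W1 := ss x1 ∪ fs x2) (W2 := ss y1 ∪ fs y2) hE hmax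
        (union_subset hx2.1 hx1.2) inter_subset_right (disjoint_union_left.2 ⟨hy2.1, hy1.2⟩)
        disjoint_sdiff_left p1 q1 hBB
      rw [ss_append, fs_append]
      convert this using 1
      ext z
      simp only [mem_union]
      tauto
    · have := glueT (W1 := fs x1 ∪ ss x2) (W2 := fs y1 ∪ ss y2) hE hmax
        (union_subset hx1.1 hx2.2) inter_subset_right (disjoint_union_left.2 ⟨hy1.1, hy2.2⟩)
        disjoint_sdiff_left p2 q2 hBB
      rw [ss_append, fs_append]
      convert this using 1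
      ext z
      simp only [mem_union]
      tauto

theorem step1T {N : Matroid α} (hE : N.E.Finite) {B B' K : Set α} (hB : N.IsBase B)
    (hB' : N.IsBase B') (hd : Disjoint B B') (hu : B ∪ B' = N.E) (hKE : K ⊆ N.E)
    (hmax : ∀ A, N.IsBase A → (A ∩ K).ncard ≤ (B ∩ K).ncard)
    (h2 : 1 ≤ K.ncard) (h2' : 1 ≤ (N.E \ K).ncard)
    (hc : (B ∩ K).ncard = (B' ∩ K).ncard)
    (ih : ∀ N' : Matroid α, N' ≤m N → N'.E.ncard < N.E.ncard → Ok N') :
    ∃ l, Good N B B' l := by
  have hdm : ∀ z, z ∈ B → z ∈ B' → False := fun z h h' => (Set.disjoint_left.1 hd) h h'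
  have hum : ∀ z, z ∈ N.E ↔ z ∈ B ∨ z ∈ B' := fun z => by rw [← hu, mem_union]
  have fK : K.Finite := hE.subset hKE
  have fL : (N.E \ K).Finite := hE.subset sdiff_subset
  have hn : K.ncard + (N.E \ K).ncard = N.E.ncard := by
    have := card_split (K := K) hE
    rwa [inter_eq_right.2 hKE] at this
  have b1 : N.IsBase ((B ∩ K) ∪ (B \ K)) := by rw [inter_union_sdiff]; exact hB
  have b1' : N.IsBase ((B \ K) ∪ (B ∩ K)) := by rw [union_comm]; exact b1
  have b2 : N.IsBase ((B' ∩ K) ∪ (B \ K)) :=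
    swapMax hE (fun A hA => hc ▸ hmax A hA) hB' hB hc.symm
  have b3 : N.IsBase ((B' \ K) ∪ (B ∩ K)) := by
    rw [union_comm]
    exact swapMax hE hmax hB hB' hc
  have m1 := minor_base (N := N) (C := B \ K) (D := B' \ K) (X0 := B ∩ K) b1
    (Set.disjoint_left.2 fun z h h' => h'.2 h.2)
    (Set.disjoint_left.2 fun z h h' => h'.2 h.2)
    (sdiff_subset.trans hB'.subset_ground)
    (Set.disjoint_left.2 fun z h h' => hdm z h.1 h'.1)
  have m2 := minor_base (N := N) (C := B ∩ K) (D := B' ∩ K) (X0 := B \ K) b1'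
    (Set.disjoint_left.2 fun z h h' => h.2 h'.2)
    (Set.disjoint_left.2 fun z h h' => h.2 h'.2)
    (inter_subset_left.trans hB'.subset_ground)
    (Set.disjoint_left.2 fun z h h' => hdm z h.1 h'.1)
  have g1 : (N ／ (B \ K) ＼ (B' \ K)).E = K := by
    rw [delete_ground, contract_ground]
    ext z
    simp only [mem_sdiff, hum]
    constructor
    · tauto
    · intro hz
      have := hum z
      have := hKE hz
      tauto
  have g2 : (N ／ (B ∩ K) ＼ (B' ∩ K)).E = N.E \ K := by
    rw [delete_ground, contract_ground]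
    ext z
    simp only [mem_sdiff, hum, mem_inter_iff]
    tauto
  obtain ⟨l1, hl1⟩ := ih (N ／ (B \ K) ＼ (B' \ K)) (contract_delete_isMinor _ _ _)
    (by rw [g1]; omega) (by rw [g1]; exact fK) (B ∩ K) (B' ∩ K)
    ((m1 _).2 ⟨⟨b1, Set.disjoint_left.2 fun z h h' => h'.2 h.2⟩,
      Set.disjoint_left.2 fun z h h' => h'.2 h.2⟩)
    ((m1 _).2 ⟨⟨b2, Set.disjoint_left.2 fun z h h' => h'.2 h.2⟩,
      Set.disjoint_left.2 fun z h h' => h'.2 h.2⟩)
    (Set.disjoint_left.2 fun z h h' => hdm z h.1 h'.1)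
    (by
      rw [g1]
      ext z
      simp only [mem_union, mem_inter_iff]
      constructor
      · tauto
      · intro hz
        have := (hum z).1 (hKE hz)
        tauto)
  obtain ⟨l2, hl2⟩ := ih (N ／ (B ∩ K) ＼ (B' ∩ K)) (contract_delete_isMinor _ _ _)
    (by rw [g2]; omega) (by rw [g2]; exact fL) (B \ K) (B' \ K)
    ((m2 _).2 ⟨⟨b1', Set.disjoint_left.2 fun z h h' => h.2 h'.2⟩,
      Set.disjoint_left.2 fun z h h' => h.2 h'.2⟩)
    ((m2 _).2 ⟨⟨b3, Set.disjoint_left.2 fun z h h' => h.2 h'.2⟩,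
      Set.disjoint_left.2 fun z h h' => h.2 h'.2⟩)
    (Set.disjoint_left.2 fun z h h' => hdm z h.1 h'.1)
    (by
      rw [g2]
      ext z
      simp only [mem_union, mem_sdiff, hum]
      tauto)
  exact ⟨l1 ++ l2, glue1T hE hmax hB hl1.len hl2.len hl1.e1 hl1.e2 hl2.e1 hl2.e2
    (fun a b h => ⟨((m1 _).1 (hl1.w a b h).1).1.1, ((m1 _).1 (hl1.w a b h).2).1.1⟩)
    (fun a b h => ⟨((m2 _).1 (hl2.w a b h).1).1.1, ((m2 _).1 (hl2.w a b h).2).1.1⟩)⟩

/-- the reduction to minors which are 3-connected and strictly dense -/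
theorem reductionT (M : Matroid α) (hleaf : ∀ N : Matroid α, N ≤m M → Conn3 N → Dense N → Ok N) :
    ∀ n, ∀ N : Matroid α, N ≤m M → N.E.ncard = n → Ok N := by
  intro n
  induction n using Nat.strong_induction_on with
  | _ n ih =>
  intro N hN hn
  by_cases hc : Conn3 N
  · by_cases hD : Dense N
    · exact hleaf N hN hc hD
    intro hE B B' hB hB' hd hu
    unfold Dense at hD
    push Not at hD
    obtain ⟨K, hKE, hne, hne', hK⟩ := hD
    have fK : K.Finite := hE.subset hKE
    have k1 : 1 ≤ K.ncard := (Set.ncard_pos fK).2 hne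
    have k2 : 1 ≤ (N.E \ K).ncard := by
      rw [Nat.one_le_iff_ne_zero, Ne, Set.ncard_eq_zero (hE.subset sdiff_subset), sdiff_eq_empty]
      exact fun h => hne' (Set.Subset.antisymm hKE h)
    have ih' : ∀ N' : Matroid α, N' ≤m N → N'.E.ncard < N.E.ncard → Ok N' := fun N' h h' =>
      ih N'.E.ncard (hn ▸ h') N' (h.trans hN) rfl
    have hsum : (B ∩ K).ncard + (B' ∩ K).ncard = K.ncard := by
      rw [← Set.ncard_union_eq ((hd.mono inter_subset_left inter_subset_left))
        (fK.subset inter_subset_right) (fK.subset inter_subset_right), ← union_inter_distrib_right,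
        hu, inter_eq_right.2 hKE]
    have e1 := hK B hB
    have e2 := hK B' hB'
    exact step1T hE hB hB' hd hu hKE (fun A hA => by have := hK A hA; omega) k1 k2 (by omega) ih'
  intro hE B B' hB hB' hd hu
  unfold Conn3 at hc
  push Not at hc
  obtain ⟨K, hKE, h2, h2', hK⟩ := hc
  have hK' : ∀ A A', N.IsBase A → N.IsBase A' → (A ∩ K).ncard ≤ (A' ∩ K).ncard + 1 := by
    intro A A' h h'
    have := hK A A' h h'
    omega
  have ih' : ∀ N' : Matroid α, N' ≤m N → N'.E.ncard < N.E.ncard → Ok N' := fun N' h h' =>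
    ih N'.E.ncard (hn ▸ h') N' (h.trans hN) rfl
  have h1 := hK' B B' hB hB'
  have h1' := hK' B' B hB' hB
  rcases lt_trichotomy (B ∩ K).ncard (B' ∩ K).ncard with hlt | heq | hgt
  · -- pass to the complement
    have key : ∀ A, N.IsBase A → (A ∩ (N.E \ K)).ncard + (A ∩ K).ncard = A.ncard := by
      intro A hA
      have := card_split (K := K) (hE.subset hA.subset_ground)
      have he : A ∩ (N.E \ K) = A \ K := by
        ext z
        simp only [mem_inter_iff, mem_sdiff]
        have hz : z ∈ A → z ∈ N.E := fun h => hA.subset_ground h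
        tauto
      rw [he]
      omega
    have hLL : N.E \ (N.E \ K) = K := by
      rw [Set.sdiff_sdiff_right_self, inter_eq_right]
      exact hKE
    refine step2 (K := N.E \ K) hE hB hB' hd hu sdiff_subset ?_ h2' (by rw [hLL]; exact h2) ?_ ih'
    · intro A A' hA hA'
      have e1 := key A hA
      have e2 := key A' hA'
      have e3 := hA.ncard_eq_ncard_of_isBase hA'
      have e4 := hK' A' A hA' hA
      omega
    · have e1 := key B hB
      have e2 := key B' hB'
      have e3 := hB.ncard_eq_ncard_of_isBase hB'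
      omega
  · exact step1 hE hB hB' hd hu hKE hK' h2 h2' heq ih'
  · exact step2 hE hB hB' hd hu hKE hK' h2 h2' (by omega) ih'

end Pool.Agent.Gab7e_h87
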