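import Pool.Agent.Gab7d_h87.Lst
import Pool.Agent.Gab7e_h87.Tight

/-!
# Gabow's conjecture and 3-connected minors
-/

set_option autoImplicit false

namespace Pool.Agent.Gab7e_h87

open Pool.Agent.Gabow87 Pool.Agent.Gab7d_h87 Pool.Agent.H11Sum
open scoped Matroid

variable {α : Type*}

theorem fs_eq (L : List (α × α)) : fs L = F L := by
  ext x
  simp [fs, F]

theorem ss_eq (L : List (α × α)) : ss L = Gab7d_h87.S L := by
  ext x
  simp [ss, Gab7d_h87.S]

theorem nodup_of_card {l : List α} (h : l.length ≤ {x | x ∈ l}.ncard) : l.Nodup := by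
  classical
  refine Pool.Agent.Gab7c_h87.list_nodup_of_card l ?_
  have : {x | x ∈ l} = (l.toFinset : Set α) := by
    ext x
    simp
  rwa [this, Set.ncard_coe_finset] at h

theorem card_of_nodup {l : List α} (h : l.Nodup) : l.length = {x | x ∈ l}.ncard := by
  classical
  have : {x | x ∈ l} = (l.toFinset : Set α) := by
    ext x
    simp
  rw [this, Set.ncard_coe_finset, List.toFinset_card_of_nodup h]

theorem good_of_ord {N : Matroid α} {B B' : Set α} (h : Ord N.IsBase B B') :
    ∃ l, Good N B B' l := by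
  obtain ⟨L, h1, h2, rfl, rfl, h⟩ := h
  refine ⟨L, ?_, fs_eq L, ss_eq L, ?_⟩
  · have := card_of_nodup h1
    rw [List.length_map] at this
    exact this
  · intro l1 l2 hl
    obtain ⟨h3, h4⟩ := h l1 l2 hl
    rw [fs_eq, fs_eq, ss_eq, ss_eq, Set.union_comm, Set.union_comm (F l1)]
    exact ⟨h3, h4⟩

theorem ord_of_good {N : Matroid α} {B B' : Set α} (hB : N.IsBase B) (hB' : N.IsBase B')
    {l : List (α × α)} (h : Good N B B' l) : Ord N.IsBase B B' := by
  have e1 := h.e1
  have e2 := h.e2
  rw [fs_eq] at e1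
  rw [ss_eq] at e2
  refine ⟨l, nodup_of_card ?_, nodup_of_card ?_, e1, e2, ?_⟩
  · rw [List.length_map, h.len, ← e1]
    rfl
  · rw [List.length_map, h.len, hB.ncard_eq_ncard_of_isBase hB', ← e2]
    rfl
  · intro l1 l2 hl
    obtain ⟨h3, h4⟩ := h.w l1 l2 hl
    rw [fs_eq, ss_eq, Set.union_comm] at h3 h4
    exact ⟨h3, h4⟩

/-- the two lists can be reordered such that all blocks are bases -/
def Orderable (M : Matroid α) {r : ℕ} (b b' : Fin r → α) : Prop :=
  ∃ σ σ' : Equiv.Perm (Fin r), ∀ i : Fin (r + r), M.IsBase (block (b ∘ σ) (b' ∘ σ') i)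

theorem mix_of_orderable {M : Matroid α} {r : ℕ} {b b' : Fin r → α} (hb : Function.Injective b)
    (hb' : Function.Injective b') (hB : M.IsBase (Set.range b)) (hB' : M.IsBase (Set.range b'))
    (h : Orderable M b b') : Mix M.IsBase (Set.range b) (Set.range b') := by
  obtain ⟨σ, σ', h⟩ := h
  have r1 : Set.range (b ∘ σ) = Set.range b := σ.surjective.range_comp b
  have r2 : Set.range (b' ∘ σ') = Set.range b' := σ'.surjective.range_comp b'
  refine ⟨r, b ∘ σ, b' ∘ σ', hb.comp σ.injective, hb'.comp σ'.injective, r1, r2, fun k hk => ?_⟩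
  rcases Nat.lt_or_eq_of_le hk with hk | rfl
  · refine ⟨?_, ?_⟩
    · rw [mx_lt _ _ _ hk]
      exact h _
    · rw [mx_ge _ _ _ hk]
      exact h _
  · refine ⟨?_, ?_⟩
    · rw [mx_full, r2]
      exact hB'
    · rw [mx_full, r1]
      exact hB

/-- equal elements in pairs -/
theorem ord_diag {C : Set α} (hC : C.Finite) : Ord (fun X => X = C) C C := by
  obtain ⟨u, hu, hr⟩ := exists_list hC rfl
  refine ord_of_mix ⟨_, u, u, hu, hu, hr, hr, fun k hk => ?_⟩
  have : mx u u k = C := by
    refine Eq.trans ?_ hr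
    ext x
    constructor
    · rintro (⟨j, -, rfl⟩ | ⟨j, -, rfl⟩) <;> exact ⟨j, rfl⟩
    · rintro ⟨j, rfl⟩
      rcases Nat.lt_or_ge j.val k with h | h
      · exact Or.inr ⟨j, h, rfl⟩
      · exact Or.inl ⟨j, h, rfl⟩
  exact ⟨this, this⟩

/-- **Reduction to 3-connected minors of rank at least eight without tight sets.** -/
theorem final (M : Matroid α) {r : ℕ} (b b' : Fin r → α) (hb : Function.Injective b)
    (hb' : Function.Injective b') (hB : M.IsBase (Set.range b)) (hB' : M.IsBase (Set.range b'))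
    (h : ∀ N : Matroid α,
      N ≤m (M ↾ (Set.range b ∪ Set.range b')) ／ (Set.range b ∩ Set.range b') → Conn3 N → Dense N →
      ∀ (n : ℕ) (a a' : Fin n → α), 8 ≤ n → Function.Injective a → Function.Injective a' →
      N.IsBase (Set.range a) → N.IsBase (Set.range a') → Disjoint (Set.range a) (Set.range a') →
      Set.range a ∪ Set.range a' = N.E → Orderable N a a') :
    Orderable M b b' := by
  set B := Set.range b with hBdef
  set B' := Set.range b' with hBdef'
  have fB : B.Finite := Set.finite_range b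
  have fB' : B'.Finite := Set.finite_range b'
  let R := B ∪ B'
  let C := B ∩ B'
  have hsp : M.Spanning R := hB.spanning_of_superset Set.subset_union_left
    (Set.union_subset hB.subset_ground hB'.subset_ground)
  have hres : ∀ X, (M ↾ R).IsBase X ↔ M.IsBase X ∧ X ⊆ R := fun X => hsp.isBase_restrict_iff
  have hRB : (M ↾ R).IsBase B := (hres B).mpr ⟨hB, Set.subset_union_left⟩
  have hRB' : (M ↾ R).IsBase B' := (hres B').mpr ⟨hB', Set.subset_union_right⟩
  have hI : (M ↾ R).Indep C := hRB.indep.subset Set.inter_subset_left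
  let N := (M ↾ R) ／ C
  have hN : ∀ X, N.IsBase X ↔ (M.IsBase (X ∪ C) ∧ X ∪ C ⊆ R) ∧ Disjoint X C := fun X => by
    change ((M ↾ R) ／ C).IsBase X ↔ _
    rw [hI.contract_isBase_iff, hres]
  have hNE : N.E = (B \ B') ∪ (B' \ B) := by
    change R \ C = _
    ext t
    simp only [R, C, Set.mem_sdiff, Set.mem_union, Set.mem_inter_iff]
    tauto
  have uB : (B \ B') ∪ C = B := by
    ext t
    simp only [C, Set.mem_sdiff, Set.mem_union, Set.mem_inter_iff]
    tauto
  have uB' : (B' \ B) ∪ C = B' := by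
    ext t
    simp only [C, Set.mem_sdiff, Set.mem_union, Set.mem_inter_iff]
    tauto
  have dC : Disjoint (B \ B') C := Set.disjoint_left.mpr fun t h1 h2 => h1.2 h2.2
  have dC' : Disjoint (B' \ B) C := Set.disjoint_left.mpr fun t h1 h2 => h1.2 h2.1
  have nB : N.IsBase (B \ B') := (hN _).mpr ⟨⟨by rw [uB]; exact hB, by
    rw [uB]; exact Set.subset_union_left⟩, dC⟩
  have nB' : N.IsBase (B' \ B) := (hN _).mpr ⟨⟨by rw [uB']; exact hB', by
    rw [uB']; exact Set.subset_union_right⟩, dC'⟩
  have ok : Ok N := by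
    refine reductionT N (fun N' hN' hc hD => ?_) _ N Matroid.IsMinor.refl rfl
    intro hE A A' hA hA' hd hu
    apply good_of_ord
    have fA : A.Finite := hE.subset hA.subset_ground
    have fA' : A'.Finite := hE.subset hA'.subset_ground
    rcases Nat.lt_or_ge A.ncard 8 with h8 | h8
    · refine ofFin hA hA' fA ?_
      have := Set.ncard_le_ncard (Set.sdiff_subset : A \ A' ⊆ A) fA
      omega
    · obtain ⟨a, ha, hra⟩ := exists_list fA rfl
      obtain ⟨a', ha', hra'⟩ := exists_list (n := A.ncard) fA' (hA'.ncard_eq_ncard_of_isBase hA)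
      have := h N' hN' hc hD _ a a' h8 ha ha'
        (by rw [hra]; exact hA) (by rw [hra']; exact hA') (by rw [hra, hra']; exact hd)
        (by rw [hra, hra']; exact hu)
      have := ord_of_mix (mix_of_orderable ha ha' (by rw [hra]; exact hA)
        (by rw [hra']; exact hA') this)
      rwa [hra, hra'] at this
  have fE : N.E.Finite := by
    rw [hNE]
    exact (fB.subset Set.sdiff_subset).union (fB'.subset Set.sdiff_subset)
  obtain ⟨l, hl⟩ := ok fE _ _ nB nB' (Set.disjoint_left.mpr fun t h1 h2 => h1.2 h2.1) hNE.symm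
  have o1 : Ord N.IsBase (B \ B') (B' \ B) := ord_of_good nB nB' hl
  have o2 : Ord (fun X => X = C) C C := ord_diag (fB.subset Set.inter_subset_left)
  have o3 : Ord M.IsBase ((B \ B') ∪ C) ((B' \ B) ∪ C) :=
    ord_of_mix ((mix_of_ord o1).sum (mix_of_ord o2) dC dC' (by
      rintro X Y hX rfl
      exact ((hN X).mp hX).1.1))
  rw [uB, uB'] at o3
  exact toFin b b' hb hb' o3

end Pool.Agent.Gab7e_h87
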