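import Pool.Agent.Gab7e_h87.Final5

/-!
# The reduction without a hypothesis
-/

set_option autoImplicit false

namespace Pool.Agent.Gab7e_h87

open Pool.Agent.Gabow87 Pool.Agent.Gab7d_h87 Pool.Agent.H11Sum
open scoped Matroid

/-- Two bases are orderable or there is a 3-connected minor of rank at least eight with two bases
which are not orderable. -/
theorem either {α : Type*} (M : Matroid α) {r : ℕ} (b b' : Fin r → α) (hb : Function.Injective b)
    (hb' : Function.Injective b') (hB : M.IsBase (Set.range b)) (hB' : M.IsBase (Set.range b')) :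
    Orderable M b b' ∨ ∃ N : Matroid α,
      N ≤m (M ↾ (Set.range b ∪ Set.range b')) ／ (Set.range b ∩ Set.range b') ∧
      Conn3 N ∧ Dense N ∧ ∃ (n : ℕ) (a a' : Fin n → α), 8 ≤ n ∧
        Function.Injective a ∧ Function.Injective a' ∧
        N.IsBase (Set.range a) ∧ N.IsBase (Set.range a') ∧
        Disjoint (Set.range a) (Set.range a') ∧ Set.range a ∪ Set.range a' = N.E ∧
        ¬ Orderable N a a' := by
  by_contra hcon
  rw [not_or] at hcon
  obtain ⟨h1, h2⟩ := hcon
  refine h1 (final M b b' hb hb' hB hB' fun N hN hc hD n a a' hn ha ha' hA hA' hd hu => ?_)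
  by_contra h3
  exact h2 ⟨N, hN, hc, hD, n, a, a', hn, ha, ha', hA, hA', hd, hu, h3⟩

end Pool.Agent.Gab7e_h87
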